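import Pool.Agent.H29.DPC.S2

/-!
# DPC: row LFP (removing an Euler factor)
-/

set_option autoImplicit false

namespace Pool.DPC

namespace H52

open Polynomial Complex

/-- values of the character of higher level -/
theorem level_val {f f' : ℕ} (h : f ∣ f') (psi : DirichletCharacter ℂ f) (l : ℕ)
    (hl : l.Coprime f') :
    DirichletCharacter.changeLevel h psi (l : ZMod f') = psi (l : ZMod f) := by
  have h1 := DirichletCharacter.changeLevel_eq_cast_of_dvd psi h (ZMod.unitOfCoprime l hl)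
  rw [ZMod.coe_unitOfCoprime] at h1
  rw [h1]
  congr 1
  exact ZMod.cast_natCast h l

theorem factor_ne {d : ℕ} {P : ℕ → ℚ[X]} (hW : Weil d P) {f : ℕ}
    (psi : DirichletCharacter ℂ f) {p : ℕ} (hp : p.Prime) {z : ℂ} (hz : 3 / 2 < z.re) :
    aeval (psi (p : ZMod f) * (p : ℂ) ^ (-z)) (P p) ≠ 0 := by
  intro h0
  have h1 := (hW p hp).2.2 _ h0
  have hp0 : (0 : ℝ) < p := by exact_mod_cast hp.pos
  have hp1 : (1 : ℝ) < p := by exact_mod_cast hp.one_lt
  have h2 : ‖psi (p : ZMod f) * (p : ℂ) ^ (-z)‖ ≤ (p : ℝ)⁻¹ := by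
    rw [norm_mul, Complex.norm_natCast_cpow_of_pos hp.pos]
    have h3 : ‖psi (p : ZMod f)‖ ≤ 1 := psi.norm_le_one _
    have h4 : (p : ℝ) ^ (-z).re ≤ (p : ℝ) ^ (-1 : ℝ) := by
      apply Real.rpow_le_rpow_of_exponent_le hp1.le
      rw [Complex.neg_re]
      linarith
    rw [Real.rpow_neg_one] at h4
    have h5 : 0 ≤ (p : ℝ) ^ (-z).re := Real.rpow_nonneg hp0.le _
    nlinarith
  have h3 : Real.sqrt p * ‖psi (p : ZMod f) * (p : ℂ) ^ (-z)‖ ≤ Real.sqrt p * (p : ℝ)⁻¹ :=
    mul_le_mul_of_nonneg_left h2 (Real.sqrt_nonneg _)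
  have h4 : Real.sqrt p * (p : ℝ)⁻¹ < 1 := by
    rw [← div_eq_mul_inv, div_lt_one hp0]
    nth_rewrite 2 [← Real.mul_self_sqrt hp0.le]
    have h5 : 1 < Real.sqrt p := by
      rw [Real.lt_sqrt (by norm_num)]
      simpa using hp1
    nlinarith
  linarith

theorem half_eq {d : ℕ} {P : ℕ → ℚ[X]} {U : Set ℂ} {f f' p : ℕ} (h : f ∣ f')
    (psi : DirichletCharacter ℂ f) (L L' : ℂ → ℂ) (hW : Weil d P) (hp : p.Prime)
    (hpf : ¬ p ∣ f) (hf' : f' = p * f) (hL : IsTwistedL P U psi L)
    (hL' : IsTwistedL P U (DirichletCharacter.changeLevel h psi) L') {z : ℂ}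
    (hz : 3 / 2 < z.re) :
    L' z = L z * aeval (psi (p : ZMod f) * (p : ℂ) ^ (-z)) (P p) := by
  classical
  set A : Set ℕ := {l | l.Prime ∧ ¬ l ∣ f} with hA
  set B : Set ℕ := {l | l.Prime ∧ ¬ l ∣ f'} with hB
  have hne := factor_ne hW psi hp hz
  have h1 : HasProd (A.mulIndicator (eulerFactor P psi z)) (L z) := by
    rw [← hasProd_subtype_iff_mulIndicator]
    exact hL.2 z hz
  have h2 : HasProd (B.mulIndicator (eulerFactor P (DirichletCharacter.changeLevel h psi) z))
      (L' z) := by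
    rw [← hasProd_subtype_iff_mulIndicator]
    exact hL'.2 z hz
  have h3 : HasProd (Pi.mulSingle p (eulerFactor P psi z p) : ℕ → ℂ) (eulerFactor P psi z p) := by
    have h7 := hasProd_single (f := (Pi.mulSingle p (eulerFactor P psi z p) : ℕ → ℂ)) p
      (by intro b hb; exact Pi.mulSingle_eq_of_ne hb _)
    rwa [Pi.mulSingle_eq_same] at h7
  have h4 := h2.mul h3
  have h5 : (fun l => B.mulIndicator (eulerFactor P (DirichletCharacter.changeLevel h psi) z) l *
      (Pi.mulSingle p (eulerFactor P psi z p) : ℕ → ℂ) l) =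
      A.mulIndicator (eulerFactor P psi z) := by
    funext l
    by_cases hlp : l = p
    · subst hlp
      have hlB : l ∉ B := by
        rw [hB, Set.mem_setOf_eq, hf']
        rintro ⟨_, h6⟩
        exact h6 (Dvd.intro _ rfl)
      have hlA : l ∈ A := ⟨hp, hpf⟩
      rw [Set.mulIndicator_of_notMem hlB, Set.mulIndicator_of_mem hlA, Pi.mulSingle_eq_same,
        one_mul]
    · rw [Pi.mulSingle_eq_of_ne hlp, mul_one]
      by_cases hlA : l ∈ A
      · have hcop : l.Coprime f' := by
          rw [hf']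
          exact Nat.Coprime.mul_right ((Nat.coprime_primes hlA.1 hp).2 hlp)
            ((hlA.1.coprime_iff_not_dvd).2 hlA.2)
        have hlB : l ∈ B := ⟨hlA.1, (hlA.1.coprime_iff_not_dvd).1 hcop⟩
        rw [Set.mulIndicator_of_mem hlB, Set.mulIndicator_of_mem hlA]
        unfold eulerFactor
        rw [level_val h psi l hcop]
      · have hlB : l ∉ B := by
          rintro ⟨h6, h7⟩
          refine hlA ⟨h6, fun h8 => h7 ?_⟩
          rw [hf']
          exact Dvd.dvd.mul_left h8 p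
        rw [Set.mulIndicator_of_notMem hlB, Set.mulIndicator_of_notMem hlA]
  rw [h5] at h4
  have h6 := h4.unique h1
  rw [← h6, mul_assoc]
  unfold eulerFactor
  rw [inv_mul_cancel₀ hne, mul_one]

end H52

open Polynomial Complex in
theorem t_lfp : LFPStmt := by
  intro d P U f f' p h psi L L' hW hU hf hp hpf hf' hL hL'
  set G : ℂ → ℂ := fun z => aeval (psi (p : ZMod f) * (p : ℂ) ^ (-z)) (P p) with hG
  have hp0 : (p : ℂ) ≠ 0 := by exact_mod_cast hp.ne_zero
  have hGd : Differentiable ℂ G := by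
    have h1 : Differentiable ℂ (fun z : ℂ => psi (p : ZMod f) * (p : ℂ) ^ (-z)) := by
      apply Differentiable.const_mul
      intro z
      exact (differentiableAt_id.neg).const_cpow (Or.inl hp0)
    exact ((P p).differentiable_aeval).comp h1
  have hM : DifferentiableOn ℂ (fun z => L z * G z) U := hL.1.mul hGd.differentiableOn
  have h2U : (2 : ℂ) ∈ U := hU.half 2 (by norm_num)
  have hev : L' =ᶠ[nhds (2 : ℂ)] (fun z => L z * G z) := by
    have hopen : IsOpen {z : ℂ | 3 / 2 < z.re} := isOpen_lt continuous_const Complex.continuous_re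
    have hmem : (2 : ℂ) ∈ {z : ℂ | 3 / 2 < z.re} := by
      show (3 : ℝ) / 2 < (2 : ℂ).re
      norm_num
    filter_upwards [hopen.mem_nhds hmem] with z hz
    exact H52.half_eq h psi L L' hW hp hpf hf' hL hL' hz
  have hEq := (hL'.1.analyticOnNhd hU.op).eqOn_of_preconnected_of_eventuallyEq
    (hM.analyticOnNhd hU.op) hU.conn h2U hev
  have h1 := hEq hU.one
  simp only [hG] at h1
  rw [h1, Complex.cpow_neg_one]

end Pool.DPC
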