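import Pool.Agent.H29.DPC.S1

/-!
# DPC: rows LM1, LM2 (limits of sums with added primes)
-/

set_option autoImplicit false

namespace Pool.DPC

namespace H52

open Polynomial Complex

theorem norm_pow_one {x : ℂ} (hx : ‖x‖ = 1) (i : ℕ) : ‖x ^ i‖ = 1 := by
  rw [norm_pow, hx, one_pow]

/-- one sum is close to its limit -/
theorem sum_close {d m : ℕ} {R : Nat.Primes → ℂ → ℂ} {w : ℕ → ℂ} {x : ℂ} {ε : ℝ}
    (hx : ‖x‖ = 1) {p : Nat.Primes}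
    (hp : ∀ t : ℂ, ‖t‖ = 1 → ‖R p t - (-1) ^ d * (t⁻¹) ^ d‖ < ε) :
    ‖∑ i ∈ un m, w i * R p (x ^ i) - (-1) ^ d * ∑ i ∈ un m, w i * (x⁻¹) ^ (d * i)‖ ≤
      ε * ∑ i ∈ un m, ‖w i‖ := by
  have h1 : ∑ i ∈ un m, w i * R p (x ^ i) - (-1) ^ d * ∑ i ∈ un m, w i * (x⁻¹) ^ (d * i) =
      ∑ i ∈ un m, w i * (R p (x ^ i) - (-1) ^ d * ((x ^ i)⁻¹) ^ d) := by
    rw [Finset.mul_sum, ← Finset.sum_sub_distrib]
    refine Finset.sum_congr rfl fun i _ => ?_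
    have h2 : ((x ^ i)⁻¹) ^ d = (x⁻¹) ^ (d * i) := by
      rw [← inv_pow, ← pow_mul, mul_comm]
    rw [h2]
    ring
  rw [h1, Finset.mul_sum]
  refine (norm_sum_le _ _).trans (Finset.sum_le_sum fun i _ => ?_)
  rw [norm_mul, mul_comm]
  exact mul_le_mul_of_nonneg_right (hp _ (norm_pow_one hx i)).le (norm_nonneg _)

theorem sum_close2 {d m : ℕ} {R : Nat.Primes → ℂ → ℂ} {w : ℕ → ℂ} {x : ℂ} {ε : ℝ}
    (hx : ‖x‖ = 1) {p p' : Nat.Primes} (hε : ε ≤ 1) (hε0 : 0 < ε)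
    (hp : ∀ t : ℂ, ‖t‖ = 1 → ‖R p t - (-1) ^ d * (t⁻¹) ^ d‖ < ε)
    (hp' : ∀ t : ℂ, ‖t‖ = 1 → ‖R p' t - (-1) ^ d * (t⁻¹) ^ d‖ < ε) :
    ‖∑ i ∈ un m, w i * (R p (x ^ i) * R p' 1) - ∑ i ∈ un m, w i * (x⁻¹) ^ (d * i)‖ ≤
      3 * ε * ∑ i ∈ un m, ‖w i‖ := by
  rw [← Finset.sum_sub_distrib, Finset.mul_sum]
  refine (norm_sum_le _ _).trans (Finset.sum_le_sum fun i _ => ?_)
  have h2 : ((x ^ i)⁻¹) ^ d = (x⁻¹) ^ (d * i) := by
    rw [← inv_pow, ← pow_mul, mul_comm]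
  have ha := hp _ (norm_pow_one hx i)
  have hb := hp' 1 norm_one
  rw [h2] at ha
  rw [inv_one, one_pow, mul_one] at hb
  set a := R p (x ^ i)
  set b := R p' 1
  set y := (x⁻¹) ^ (d * i) with hy
  have hy1 : ‖y‖ = 1 := by
    rw [hy, norm_pow, norm_inv, hx, inv_one, one_pow]
  have hs : ((-1 : ℂ) ^ d) * (-1) ^ d = 1 := by
    rw [← mul_pow]; norm_num
  have hsn : ‖((-1 : ℂ) ^ d)‖ = 1 := by
    rw [norm_pow, norm_neg, norm_one, one_pow]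
  have h3 : w i * (a * b) - w i * y =
      w i * ((a - (-1) ^ d * y) * (b - (-1) ^ d) + (a - (-1) ^ d * y) * (-1) ^ d +
        (-1) ^ d * y * (b - (-1) ^ d)) := by
    linear_combination (w i * y) * hs
  rw [h3, norm_mul, mul_comm]
  refine mul_le_mul_of_nonneg_right ?_ (norm_nonneg _)
  refine (norm_add₃_le).trans ?_
  rw [norm_mul, norm_mul, norm_mul, norm_mul, hsn, hy1]
  have h4 : ‖a - (-1) ^ d * y‖ * ‖b - (-1) ^ d‖ ≤ ε * 1 :=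
    mul_le_mul ha.le (hb.le.trans hε) (norm_nonneg _) hε0.le
  linarith

theorem eq_zero_of_close {z : ℂ} {K : ℝ} (hK : 0 ≤ K)
    (h : ∀ ε : ℝ, 0 < ε → ε ≤ 1 → ‖z‖ ≤ ε * K) : z = 0 := by
  by_contra hz
  have hz' : 0 < ‖z‖ := norm_pos_iff.2 hz
  set ε := min 1 (‖z‖ / (2 * (K + 1))) with hε
  have h0 : 0 < ε := lt_min one_pos (by positivity)
  have h1 := h ε h0 (min_le_left _ _)
  have h2 : ε * K ≤ ‖z‖ / (2 * (K + 1)) * (K + 1) :=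
    mul_le_mul (min_le_right _ _) (by linarith) hK (by positivity)
  have h3 : ‖z‖ / (2 * (K + 1)) * (K + 1) = ‖z‖ / 2 := by
    field_simp
  linarith

end H52

theorem t_lm1 : LM1Stmt := by
  intro d m R w w' x x' hR hx hx' hE
  rw [← sub_eq_zero]
  have hs : ((-1 : ℂ) ^ d) * (-1) ^ d = 1 := by
    rw [← mul_pow]; norm_num
  have hsn : ‖((-1 : ℂ) ^ d)‖ = 1 := by
    rw [norm_pow, norm_neg, norm_one, one_pow]
  have hK : (0 : ℝ) ≤ ∑ i ∈ un m, ‖w i‖ + ∑ i ∈ un m, ‖w' i‖ := by positivity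
  refine H52.eq_zero_of_close hK fun ε hε _ => ?_
  obtain ⟨B, hB⟩ := hR ε hε
  obtain ⟨p, hpB, hp⟩ := hE B
  have h1 := H52.sum_close (w := w) (m := m) hx (hB p hpB)
  have h2 := H52.sum_close (w := w') (m := m) hx' (hB p hpB)
  rw [hp] at h1
  set S := ∑ i ∈ un m, w i * (x⁻¹) ^ (d * i)
  set S' := ∑ i ∈ un m, w' i * (x'⁻¹) ^ (d * i)
  set T := ∑ i ∈ un m, w' i * R p (x' ^ i)
  have h3 : ‖S - S'‖ = ‖(T - (-1) ^ d * S') - (T - (-1) ^ d * S)‖ := by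
    have h4 : (T - (-1) ^ d * S') - (T - (-1) ^ d * S) = (-1) ^ d * (S - S') := by ring
    rw [h4, norm_mul, hsn, one_mul]
  rw [h3]
  refine (norm_sub_le _ _).trans ?_
  linarith

theorem t_lm2 : LM2Stmt := by
  intro d m R w x hR hx hE
  have hK : (0 : ℝ) ≤ 3 * ∑ i ∈ un m, ‖w i‖ := by positivity
  refine H52.eq_zero_of_close hK fun ε hε hε1 => ?_
  obtain ⟨B, hB⟩ := hR ε hε
  obtain ⟨p, p', hpB, hpB', hp⟩ := hE B
  have h1 := H52.sum_close2 (w := w) (m := m) hx hε1 hε (hB p hpB) (hB p' hpB')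
  rw [hp, zero_sub, norm_neg] at h1
  linarith

end Pool.DPC
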