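import Pool.Agent.H29.DPC.S2

/-!
# DPC: row SEM (semilinear maps)
-/

set_option autoImplicit false

namespace Pool.DPC

namespace H52

open Polynomial Complex

theorem pow_red {n : ℕ} (hn : 0 < n) {φ : Ch} (h : φ ^ n = 1) (m : ℤ) :
    ∃ i : ℕ, i < n ∧ φ ^ m = φ ^ i := by
  have hn' : (0 : ℤ) < n := by exact_mod_cast hn
  have h0 := Int.emod_nonneg m hn'.ne'
  have h1 := Int.emod_lt_of_pos m hn'
  refine ⟨(m % n).toNat, by omega, ?_⟩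
  rw [← zpow_natCast φ (m % n).toNat, Int.toNat_of_nonneg h0]
  conv_lhs => rw [← Int.mul_ediv_add_emod m n]
  rw [zpow_add, zpow_mul, zpow_natCast, h, one_zpow, one_mul]

theorem mem_cl {n : ℕ} (hn : 0 < n) {φ χ : Ch} (h : φ ^ n = 1) (h' : χ ^ n = 1) {ψ : Ch}
    (hψ : ψ ∈ (Subgroup.closure {φ, χ} : Set Ch)) :
    ∃ i j : ℕ, i < n ∧ j < n ∧ ψ = φ ^ i * χ ^ j := by
  rw [SetLike.mem_coe, Subgroup.mem_closure_pair] at hψ
  obtain ⟨a, b, hab⟩ := hψ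
  obtain ⟨i, hi, hi'⟩ := pow_red hn h a
  obtain ⟨j, hj, hj'⟩ := pow_red hn h' b
  exact ⟨i, j, hi, hj, by rw [← hab, hi', hj']⟩

theorem fin_cl {n : ℕ} (hn : 0 < n) {φ χ : Ch} (h : φ ^ n = 1) (h' : χ ^ n = 1) :
    (Subgroup.closure {φ, χ} : Set Ch).Finite := by
  classical
  refine Set.Finite.subset (((Finset.range n) ×ˢ (Finset.range n)).image
    (fun p : ℕ × ℕ => φ ^ p.1 * χ ^ p.2)).finite_toSet ?_
  intro ψ hψ
  obtain ⟨i, j, hi, hj, rfl⟩ := mem_cl hn h h' hψ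
  rw [Finset.coe_image]
  exact ⟨(i, j), by simp [hi, hj], rfl⟩

/-- the additive map `z ↦ g (π z)` -/
noncomputable def lam {k : IntermediateField ℚ ℂ} {n : ℕ} (g : cyc k n ≃ₐ[k] cyc k n)
    (π : ℂ →ₗ[cyc k n] cyc k n) : ℂ →+ ℂ :=
  AddMonoidHom.mk' (fun z => ((g (π z) : cyc k n) : ℂ)) (by
    intro a b
    rw [map_add, map_add]
    rfl)

theorem lam_apply {k : IntermediateField ℚ ℂ} {n : ℕ} (g : cyc k n ≃ₐ[k] cyc k n)
    (π : ℂ →ₗ[cyc k n] cyc k n) (z : ℂ) : lam g π z = ((g (π z) : cyc k n) : ℂ) := rfl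

theorem lam_mul {k : IntermediateField ℚ ℂ} {n : ℕ} (g : cyc k n ≃ₐ[k] cyc k n)
    (π : ℂ →ₗ[cyc k n] cyc k n) (z : ℂ) (c : cyc k n) :
    lam g π (z * (c : ℂ)) = lam g π z * ((g c : cyc k n) : ℂ) := by
  have h1 : z * (c : ℂ) = c • z := by
    rw [Algebra.smul_def, mul_comm]
    rfl
  rw [lam_apply, lam_apply, h1, map_smul, smul_eq_mul, map_mul, mul_comm]
  rfl

theorem lam_k {k : IntermediateField ℚ ℂ} {n : ℕ} (g : cyc k n ≃ₐ[k] cyc k n)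
    (π : ℂ →ₗ[cyc k n] cyc k n) {T : ℂ} (hT : T ∈ k) :
    lam g π T = lam g π 1 * T := by
  have h1 := lam_mul g π 1 (algebraMap k (cyc k n) ⟨T, hT⟩)
  rw [g.commutes] at h1
  have h2 : ((algebraMap k (cyc k n) ⟨T, hT⟩ : cyc k n) : ℂ) = T := rfl
  rw [h2, one_mul] at h1
  exact h1

theorem tame_fin_union {n : ℕ} {φ χ : Ch} (hφ : Tame n φ) (hχ : Tame n χ) :
    (sup φ ∪ sup χ).Finite := hφ.fin.union hχ.fin

end H52

open Polynomial Complex in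
theorem t_sem (hCOR : CORStmt) (hGRF : GRFStmt) (hSUP : SUPStmt) : SEMStmt := by
  intro k n d P V hn hnd hLim hTr g s hPow π φ hφ
  obtain ⟨_, _, _, _, _, hmul, hpow, _, _⟩ := hSUP
  -- the inverse exponent
  set s1 : ℕ := s ^ (n.totient - 1) with hs1
  have hss : s * s1 ≡ 1 [MOD n] := by
    have h1 : s * s1 = s ^ n.totient := by
      rw [hs1, ← pow_succ', Nat.sub_add_cancel (Nat.totient_pos.2 hn)]
    rw [h1]
    exact Nat.ModEq.pow_totient hPow.1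
  have hinv : ∀ ψ : Ch, ψ ^ n = 1 → (ψ ^ s) ^ s1 = ψ := by
    intro ψ hψ
    rw [← pow_mul, pow_eq_pow_of_modEq hss hψ, pow_one]
  have hinv' : ∀ ψ : Ch, ψ ^ n = 1 → (ψ ^ s1) ^ s = ψ := by
    intro ψ hψ
    rw [← pow_mul, mul_comm, pow_eq_pow_of_modEq hss hψ, pow_one]
  set Λ := H52.lam g π with hΛ
  set W : Ch → ℂ := fun ψ => Λ (V (ψ ^ s1)) - Λ 1 * V ψ with hW
  have hEq : EqY n W (Rf d P) := by
    intro α β hα hβ
    set H : Set Ch := (Subgroup.closure {α, β} : Set Ch) with hH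
    set C : Set Nat.Primes := sup α ∪ sup β with hC
    have hCf : C.Finite := H52.tame_fin_union hα hβ
    have hHf : H.Finite := H52.fin_cl hn hα.exp hβ.exp
    have hHt : ∀ ψ ∈ H, Tame n ψ := by
      intro ψ hψ
      obtain ⟨i, j, _, _, rfl⟩ := H52.mem_cl hn hα.exp hβ.exp hψ
      exact hmul n _ _ (hpow n i α hα) (hpow n j β hβ)
    have hT := hTr α β hα hβ
    rw [← hH, ← hC] at hT
    set T := ∑ᶠ ψ ∈ H, wl V (Rf d P) C ψ with hTdef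
    have h1 : Λ T = Λ 1 * T := H52.lam_k g π hT
    have h2 : Λ T = ∑ᶠ ψ ∈ H, Λ (wl V (Rf d P) C ψ) := by
      rw [hTdef]
      exact AddMonoidHom.map_finsum_mem _ Λ hHf
    have h3 : ∑ᶠ ψ ∈ H, Λ (wl V (Rf d P) C ψ) = ∑ᶠ ψ ∈ H, (Λ (V (ψ ^ s1)) *
        ∏ᶠ l ∈ C \ sup ψ, Rf d P l (ev ψ (l : ℕ))) := by
      refine finsum_mem_eq_of_bijOn (fun ψ => ψ ^ s) ⟨?_, ?_, ?_⟩ ?_
      · intro ψ hψ
        exact Subgroup.pow_mem _ hψ s
      · intro ψ hψ ψ' hψ' he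
        have he' : ψ ^ s = ψ' ^ s := he
        rw [← hinv ψ (hHt ψ hψ).exp, ← hinv ψ' (hHt ψ' hψ').exp, he']
      · intro ψ hψ
        exact ⟨ψ ^ s1, Subgroup.pow_mem _ hψ s1, hinv' ψ (hHt ψ hψ).exp⟩
      · intro ψ hψ
        obtain ⟨r, hr, hr'⟩ := hGRF k n d P C hn hCf g s hPow ψ (hHt ψ hψ)
        show Λ (V ψ * ∏ᶠ l ∈ C \ sup ψ, Rf d P l (ev ψ (l : ℕ))) = Λ (V ((ψ ^ s) ^ s1)) *
          ∏ᶠ l ∈ C \ sup (ψ ^ s), Rf d P l (ev (ψ ^ s) (l : ℕ))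
        rw [hinv ψ (hHt ψ hψ).exp, ← hr, ← hr']
        exact H52.lam_mul g π _ r
    have h4 : ∑ᶠ ψ ∈ H, wl W (Rf d P) C ψ = ∑ᶠ ψ ∈ H, ((Λ (V (ψ ^ s1)) *
        ∏ᶠ l ∈ C \ sup ψ, Rf d P l (ev ψ (l : ℕ))) - Λ 1 * wl V (Rf d P) C ψ) := by
      refine finsum_mem_congr rfl fun ψ _ => ?_
      simp only [wl, hW]
      ring
    rw [h4, finsum_mem_sub_distrib _ _ hHf, ← h3, ← h2, ← mul_finsum_mem, ← hTdef, h1,
      sub_self]
  have h5 := hCOR n d W (Rf d P) hn hnd hLim hEq (φ ^ s) (hpow n s φ hφ)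
  simp only [hW] at h5
  rw [hinv φ hφ.exp, sub_eq_zero] at h5
  exact h5

end Pool.DPC
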